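import Pool.Agent.N236.UR.Stm6

set_option autoImplicit false

/-! Project UR part 5: the residue field of a finite extension (helper722). -/

open Pool.Agent.N236.UR

namespace Pool.Agent.N722.UR

section

variable {L : Type} [Field L] (v : AbsoluteValue L ℝ)
  (hna : ∀ x y : L, v (x + y) ≤ max (v x) (v y))

/-- the valuation ring -/
def ring : Subring L where
  carrier := {x | v x ≤ 1}
  mul_mem' := by
    intro a b ha hb
    simp only [Set.mem_ofPred_eq] at ha hb ⊢
    rw [map_mul]
    exact mul_le_one₀ ha (v.nonneg _) hb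
  one_mem' := by simp
  add_mem' := by
    intro a b ha hb
    simp only [Set.mem_ofPred_eq] at ha hb ⊢
    exact (hna a b).trans (max_le ha hb)
  zero_mem' := by simp
  neg_mem' := by
    intro a ha
    simp only [Set.mem_ofPred_eq] at ha ⊢
    rwa [AbsoluteValue.map_neg]

theorem mem_ring (x : L) : x ∈ ring v hna ↔ v x ≤ 1 := Iff.rfl

/-- the maximal ideal -/
def mx : Ideal (ring v hna) where
  carrier := {x | v (x : L) < 1}
  add_mem' := by
    intro a b ha hb
    simp only [Set.mem_ofPred_eq] at ha hb ⊢
    exact lt_of_le_of_lt (hna _ _) (max_lt ha hb)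
  zero_mem' := by simp
  smul_mem' := by
    intro c x hx
    simp only [Set.mem_ofPred_eq, smul_eq_mul] at hx ⊢
    have hc : v (c : L) ≤ 1 := c.2
    rw [Subring.coe_mul, map_mul]
    calc v (c : L) * v (x : L) ≤ 1 * v (x : L) := by
          apply mul_le_mul_of_nonneg_right hc (v.nonneg _)
      _ < 1 := by rwa [one_mul]

theorem mem_mx (x : ring v hna) : x ∈ mx v hna ↔ v (x : L) < 1 := Iff.rfl

theorem mx_max : (mx v hna).IsMaximal := by
  rw [Ideal.isMaximal_iff]
  refine ⟨?_, ?_⟩
  · rw [mem_mx]; simp
  · intro J x _ hx hxJ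
    rw [mem_mx, not_lt] at hx
    have hx1 : v (x : L) = 1 := le_antisymm x.2 hx
    have hx0 : (x : L) ≠ 0 := by
      intro h
      rw [h, map_zero] at hx1
      exact zero_ne_one hx1
    have hinv : v ((x : L)⁻¹) ≤ 1 := by rw [map_inv₀, hx1, inv_one]
    have h1 : (1 : ring v hna) = ⟨(x : L)⁻¹, hinv⟩ * x := by
      apply Subtype.ext
      rw [Subring.coe_mul]
      exact (inv_mul_cancel₀ hx0).symm
    rw [h1]
    exact J.mul_mem_left _ hxJ

end

theorem t_resf : S_RESF := by
  intro K₀ L _ _ _ _ v p hp hna hp0 hp1 _ hres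
  have := mx_max v hna
  have : Fact p.Prime := ⟨hp⟩
  set O := ring v hna with hO
  set m := mx v hna with hm
  let : Field (O ⧸ m) := Ideal.Quotient.field m
  set red : O →+* (O ⧸ m) := Ideal.Quotient.mk m with hred
  have hred0 : ∀ x : O, red x = 0 ↔ v (x : L) < 1 := by
    intro x
    rw [hred, Ideal.Quotient.eq_zero_iff_mem, hm, mem_mx]
  have hsurj : Function.Surjective red := Ideal.Quotient.mk_surjective
  have hchar : CharP (O ⧸ m) p := by
    rw [CharP.charP_iff_prime_eq_zero hp]
    have h1 : ((p : ℕ) : O ⧸ m) = red ((p : ℕ) : O) := by rw [map_natCast]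
    rw [h1, hred0]
    simpa using hp1
  let : Algebra (ZMod p) (O ⧸ m) := ZMod.algebra _ p
  have hrank : Module.rank (ZMod p) (O ⧸ m) ≤ (Module.finrank K₀ L : ℕ) := by
    apply rank_le
    intro s hs
    by_contra hcon
    push Not at hcon
    choose x hx using fun i : s => hsurj (i : O ⧸ m)
    have hdep : ¬ LinearIndependent K₀ (fun i : s => ((x i : O) : L)) := by
      intro h
      have := h.fintype_card_le_finrank
      rw [Fintype.card_coe] at this
      omega
    rw [Fintype.not_linearIndependent_iff] at hdep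
    obtain ⟨c, hc, i₀, hi₀⟩ := hdep
    obtain ⟨j, -, hj⟩ := Finset.exists_max_image Finset.univ
      (fun i : s => v (algebraMap K₀ L (c i))) ⟨i₀, Finset.mem_univ _⟩
    have hcj : c j ≠ 0 := by
      intro h
      have h1 := hj i₀ (Finset.mem_univ _)
      rw [h, map_zero, map_zero] at h1
      have h2 : v (algebraMap K₀ L (c i₀)) = 0 := le_antisymm h1 (v.nonneg _)
      rw [AbsoluteValue.eq_zero] at h2
      exact hi₀ ((map_eq_zero _).1 h2)
    have hvj : 0 < v (algebraMap K₀ L (c j)) :=
      v.pos ((map_ne_zero _).2 hcj)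
    have hd : ∀ i : s, v (algebraMap K₀ L (c i / c j)) ≤ 1 := by
      intro i
      rw [map_div₀, map_div₀, div_le_one hvj]
      exact hj i (Finset.mem_univ _)
    choose a ha using fun i : s => hres (c i / c j) (hd i)
    set D : s → O := fun i => ⟨algebraMap K₀ L (c i / c j), hd i⟩ with hD
    have hDa : ∀ i, red (D i) = ((a i : ℕ) : O ⧸ m) := by
      intro i
      have h1 : red (D i - ((a i : ℕ) : O)) = 0 := by
        rw [hred0]
        simpa [hD] using ha i
      rw [map_sub, sub_eq_zero, map_natCast] at h1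
      exact h1
    have hsum : ∑ i, D i * x i = 0 := by
      apply Subtype.ext
      have h1 : ((∑ i, D i * x i : O) : L) = ∑ i, algebraMap K₀ L (c i / c j) * (x i : L) := by
        simp [hD]
      rw [h1]
      have h2 : ∑ i, algebraMap K₀ L (c i / c j) * (x i : L) =
          (algebraMap K₀ L (c j))⁻¹ * ∑ i, c i • (x i : L) := by
        rw [Finset.mul_sum]
        apply Finset.sum_congr rfl
        intro i _
        rw [Algebra.smul_def, map_div₀]
        ring
      rw [h2, hc, mul_zero]
      rfl
    have hsum2 : ∑ i : s, ((a i : ℕ) : ZMod p) • ((i : O ⧸ m)) = 0 := by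
      have h1 := congrArg red hsum
      rw [map_sum, map_zero] at h1
      rw [← h1]
      apply Finset.sum_congr rfl
      intro i _
      rw [map_mul, hDa, hx, Algebra.smul_def, map_natCast]
    have hzero := (Fintype.linearIndependent_iff.1 hs) _ hsum2 j
    have h1 : ((a j : ℕ) : O ⧸ m) = 0 := by
      have h2 := congrArg (algebraMap (ZMod p) (O ⧸ m)) hzero
      rwa [map_natCast, map_zero] at h2
    have h3 : D j = 1 := by
      apply Subtype.ext
      simp [hD, hcj]
    have h4 := hDa j
    rw [h3, map_one, h1] at h4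
    exact one_ne_zero h4
  have hfin : Module.Finite (ZMod p) (O ⧸ m) := by
    rw [← Module.rank_lt_aleph0_iff]
    exact lt_of_le_of_lt hrank Cardinal.natCast_lt_aleph0
  have : Finite (O ⧸ m) := Module.finite_of_finite (ZMod p)
  let : Fintype (O ⧸ m) := Fintype.ofFinite _
  refine ⟨Module.finrank (ZMod p) (O ⧸ m), ?_, ?_, O, O ⧸ m, inferInstance, inferInstance, red,
    fun x => mem_ring v hna x, hred0, hsurj, ?_⟩
  · exact Module.finrank_pos
  · exact Module.finrank_le_of_rank_le hrank
  · rw [Module.card_eq_pow_finrank (K := ZMod p), ZMod.card]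

end Pool.Agent.N722.UR
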